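import Pool.Agent.Helper79.TC.Known

set_option autoImplicit false

/-!
# Upper bounds of the dimensions
-/

namespace Pool.Agent.Helper79.TC

open MvPolynomial Finset Pool.Agent.TH641.UM
open Pool.Agent.V11310.CL (gen_le coord_general)
open Pool.Agent.TH167.SHDefs
open Pool.Agent.X213.Forms (ForGeneral)

theorem finrank_of_ones {n d c : ℕ} {w : Fin n → ℕ} (p : Fin (n + c) → Fin 3 → ℂ)
    (hp : Pool.Agent.H938R2.forms 3 d (Fin.append w fun _ : Fin c => 1) p = ⊥) :
    Module.finrank ℂ (Pool.Agent.H938R2.forms 3 d w (fun i => p (Fin.castAdd c i))) ≤ c := by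
  let ev : Pool.Agent.H938R2.forms 3 d w (fun i => p (Fin.castAdd c i)) →ₗ[ℂ] (Fin c → ℂ) :=
    LinearMap.pi fun j => ((aeval (p (Fin.natAdd n j)) :
      MvPolynomial (Fin 3) ℂ →ₐ[ℂ] ℂ).toLinearMap).comp
      (Pool.Agent.H938R2.forms 3 d w (fun i => p (Fin.castAdd c i))).subtype
  have hev : ∀ (F : Pool.Agent.H938R2.forms 3 d w (fun i => p (Fin.castAdd c i))) j,
      ev F j = eval (p (Fin.natAdd n j)) (F : MvPolynomial (Fin 3) ℂ) := fun F j => rfl
  have hinj : Function.Injective ev := by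
    rw [← LinearMap.ker_eq_bot, LinearMap.ker_eq_bot']
    intro F hF
    apply Subtype.ext
    have h2 : (F : MvPolynomial (Fin 3) ℂ) ∈
        Pool.Agent.H938R2.forms 3 d (Fin.append w fun _ : Fin c => 1) p := by
      refine ⟨F.2.1, fun i => ?_⟩
      refine Fin.addCases (fun i => ?_) (fun j => ?_) i
      · have h3 := F.2.2 i
        rw [Fin.append_left]
        exact h3
      · rw [Fin.append_right]
        apply Y55.Col.vanishes_one.2
        rw [← hev, hF]
        rfl
    rw [hp] at h2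
    exact (Submodule.mem_bot ℂ).1 h2
  have h3 := LinearMap.finrank_le_finrank_of_injective hinj
  rwa [Module.finrank_fin_fun] at h3

theorem exists_conf {n d c : ℕ} {w : Fin n → ℕ}
    (h : EmpM (ms w + ones c) (↑(triangle d) : Set (ℤ × ℤ))) :
    ∃ p : Fin (n + c) → Fin 3 → ℂ, (∀ i, p i 2 ≠ 0) ∧
      Pool.Agent.H938R2.forms 3 d (Fin.append w fun _ : Fin c => 1) p = ⊥ := by
  rw [emp_iff] at h
  have hms : ms w + ones c =
      (univ : Finset (Fin (n + c))).val.map (Fin.append w fun _ : Fin c => 1) := by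
    rw [← ms_eq, ones_eq]
    unfold ms
    rw [Fin.sum_univ_add]
    simp
  rw [hms] at h
  obtain ⟨p, hp1, hp2⟩ := ((Y55.Col.general_of_emp (n := 1) h).and coord_general).exists
  exact ⟨p, fun i => (hp2 i).2.2, hp1⟩

theorem bound_of_void {n d c : ℕ} {w : Fin n → ℕ}
    (h : EmpM (ms w + ones c) (↑(triangle d) : Set (ℤ × ℤ))) {K : Type} [Field K] [CharZero K]
    {P : Fin n → Fin 2 → K}
    (hP : AlgebraicIndependent ℚ (fun ij : Fin n × Fin 2 => P ij.1 ij.2)) :
    Module.finrank K ↥(Pool.Agent.W609.CR.VS (fun j => Pool.Agent.W609.CR.aff (P j)) w d) ≤ c := by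
  obtain ⟨p, hp1, hp2⟩ := exists_conf h
  exact gen_le (fun i => hp1 _) (finrank_of_ones p hp2) hP

/-- At general points the dimension is bounded by the number of the simple points which are needed to
reach the empty system. -/
theorem general_bound {B : ℕ → Multiset ℕ → Prop} (hB : NonSpecialSet B) {n : ℕ} (d : ℕ)
    (w : Fin n → ℕ) : ForGeneral fun P : Fin n → Fin 2 → ℂ =>
      ∀ c : ℕ, Void B (triangle d) (mults w + ones c) → dimL P d w < c := by
  obtain ⟨g, F, hF, hF'⟩ := Pool.Agent.TH167.SH.dim_gen w d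
  obtain ⟨x, hx⟩ := Pool.Agent.TH698.NagT3.exists_indep (Fin n × Fin 2)
  obtain ⟨y, hy⟩ : ∃ y : Fin n → Fin 2 → ℂ, y = fun i j => x (i, j) := ⟨_, rfl⟩
  have hx' : AlgebraicIndependent ℚ (fun ij : Fin n × Fin 2 => y ij.1 ij.2) := by
    rw [hy]
    exact hx
  have h4 := hF' ℂ y (fun h0 => hF (hx'.eq_zero_of_aeval_eq_zero F h0))
  refine ⟨F.map (algebraMap ℚ ℂ), Pool.Agent.H932R3.map_ne_zero_of hF, fun P hP c hc => ?_⟩
  rw [MvPolynomial.eval_map] at hP
  have h1 := void_sound hB hc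
  have h2 : EmpM (ms w + ones c) (↑(triangle d) : Set (ℤ × ℤ)) := by
    rw [ms_eq]
    exact h1
  have h3 := bound_of_void h2 hx'
  have h5 := hF' ℂ P hP
  rw [h4] at h3
  unfold dimL
  rw [Pool.Agent.TH167.SH.sys_eq, h5]
  have h6 : (g : ℤ) ≤ c := by exact_mod_cast h3
  linarith

end Pool.Agent.Helper79.TC
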