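import Mathlib

set_option autoImplicit false

/-!
# A calculus of systems without curves, on sets of lattice points

A pair `(S, M)` consists of a finite set `S` of exponents (lattice points of the plane) and a multiset
`M` of multiplicities. It stands for the space of the Laurent polynomials with exponents in `S` and
with the multiplicities `M` at general points of the torus; `S` is arbitrary, for instance the set of
the lattice points of a polygon. For the points `triangle d` of the triangle one has the system of the
plane curves of degree `d`.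
-/

namespace Pool.Agent.Helper79.TC

/-- The number `∑ (μ + 1).choose 2` of the conditions of points with the multiplicities `M`. -/
def conditions (M : Multiset ℕ) : ℕ := (M.map fun μ => (μ + 1).choose 2).sum

/-- The exponents `(i, j)` with `i, j ≥ 0` and `i + j ≤ d`. -/
noncomputable def triangle (d : ℕ) : Finset (ℤ × ℤ) :=
  (Finset.Icc (0 : ℤ) d ×ˢ Finset.Icc (0 : ℤ) d).filter fun m => m.1 + m.2 ≤ d

/-- `k` simple points. -/
def ones (k : ℕ) : Multiset ℕ := Multiset.replicate k 1

/-- `Void B S M`, for a set `B` of pairs (degree, multiplicities): the smallest set of pairs `(S, M)`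
with the following properties.

* `known`: it contains `(triangle d, M + ones p)` for `(d, M)` in `B`, if
  `(d + 2).choose 2 ≤ conditions M + p`;
* `point`: it contains `(triangle (μ - 1), {μ})`, `μ ≥ 1`;
* `sub`, `raise`: `S` may be made smaller, points may be added and multiplicities raised;
* `exponent`: one exponent and one simple point may be added;
* `lower`: a multiplicity `l + 1` may be replaced by `l` and `l + 1` simple points;
* `affine`: `S` may be replaced by `S'` if an affine map with integral coefficients and a nonzero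
  determinant maps `S'` into `S`;
* `compress`: `S` may be replaced by `S'` if it contains the image of `S'` under compression, where
  the exponents in a column of `S'` are moved to the heights `0, 1, 2, …` in this column;
* `cut`: `(S, M)` and `(S', M')` may be joined to `(S ∪ S', M + M')` if `S` and `S'` are separated by a
  line (toric degeneration);
* `matching`: if `(triangle D, M + ones p)`, `(triangle (D - 1), M)`, `(S, D + M' + ones q)` and
  `(S, (D + 1) + M')` belong to it, where `p + q ≤ D + 1`, then so does `(S, M + M')` (the points `M`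
  collide);
* `quarters`: a multiplicity `b ≥ 1` may be replaced by the four multiplicities
  `(2 b - 1) / 4`, `2 b / 4`, `(2 b + 1) / 4`, `(2 b + 2) / 4` (integral parts);
* `doubling`: if `N` points of multiplicity `2 m` with `M + ones (c + N m)`, and `N` points of
  multiplicity `2 m + 1` with `M + ones c` belong to it, for `S`, then so do `4 N` points of
  multiplicity `m` with `M + ones c`;
* `convexity`: if `x + x + M + ones a` and `y + y + M + ones b` belong to it, for `S`, `x ≤ y`, then
  so does `x + y + M + ones ((a + b) / 2)`;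
* `quadratic`: if `a + b, a + c, b + c ≤ d` and `{d - b - c, d - a - c, d - a - b} + M` belongs to it
  for the degree `2 d - a - b - c`, then so does `{a, b, c} + M` for the degree `d`. -/
inductive Void (B : ℕ → Multiset ℕ → Prop) : Finset (ℤ × ℤ) → Multiset ℕ → Prop
  | known (d : ℕ) (M : Multiset ℕ) (p : ℕ) (h : B d M)
      (hp : (d + 2).choose 2 ≤ conditions M + p) : Void B (triangle d) (M + ones p)
  | point (μ : ℕ) (hμ : 1 ≤ μ) : Void B (triangle (μ - 1)) {μ}
  | sub (S S' : Finset (ℤ × ℤ)) (M M' : Multiset ℕ) (hS : S' ⊆ S) (hM : M ≤ M')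
      (h : Void B S M) : Void B S' M'
  | raise (S : Finset (ℤ × ℤ)) (a b : ℕ) (M : Multiset ℕ) (hab : a ≤ b)
      (h : Void B S (a ::ₘ M)) : Void B S (b ::ₘ M)
  | exponent (S : Finset (ℤ × ℤ)) (M : Multiset ℕ) (m : ℤ × ℤ) (h : Void B S M) :
      Void B (insert m S) (M + ones 1)
  | lower (S : Finset (ℤ × ℤ)) (M : Multiset ℕ) (l : ℕ) (h : Void B S ((l + 1) ::ₘ M)) :
      Void B S (l ::ₘ (M + ones (l + 1)))
  | affine (S S' : Finset (ℤ × ℤ)) (M : Multiset ℕ) (a b c d u v : ℤ) (hdet : a * d - b * c ≠ 0)
      (hS : ∀ m ∈ S', (a * m.1 + b * m.2 + u, c * m.1 + d * m.2 + v) ∈ S) (h : Void B S M) :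
      Void B S' M
  | compress (S S' : Finset (ℤ × ℤ)) (M : Multiset ℕ)
      (hS : ∀ m ∈ S', (m.1, ((S'.filter fun m' => m'.1 = m.1 ∧ m'.2 < m.2).card : ℤ)) ∈ S)
      (h : Void B S M) : Void B S' M
  | cut (S S' : Finset (ℤ × ℤ)) (M M' : Multiset ℕ) (a b : ℤ)
      (hcut : ∀ m ∈ S, ∀ m' ∈ S', a * m.1 + b * m.2 < a * m'.1 + b * m'.2)
      (h : Void B S M) (h' : Void B S' M') : Void B (S ∪ S') (M + M')
  | matching (S : Finset (ℤ × ℤ)) (M M' : Multiset ℕ) (D p q : ℕ) (hD : 1 ≤ D)
      (hpq : p + q ≤ D + 1) (h1 : Void B (triangle D) (M + ones p))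
      (h2 : Void B (triangle (D - 1)) M) (h3 : Void B S (D ::ₘ (M' + ones q)))
      (h4 : Void B S ((D + 1) ::ₘ M')) : Void B S (M + M')
  | quarters (S : Finset (ℤ × ℤ)) (b : ℕ) (M : Multiset ℕ) (hb : 1 ≤ b) (h : Void B S (b ::ₘ M)) :
      Void B S ({(2 * b - 1) / 4, 2 * b / 4, (2 * b + 1) / 4, (2 * b + 2) / 4} + M)
  | doubling (S : Finset (ℤ × ℤ)) (N m c : ℕ) (M : Multiset ℕ)
      (h1 : Void B S (Multiset.replicate N (2 * m) + M + ones (c + N * m)))
      (h2 : Void B S (Multiset.replicate N (2 * m + 1) + M + ones c)) :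
      Void B S (Multiset.replicate (4 * N) m + M + ones c)
  | convexity (S : Finset (ℤ × ℤ)) (x y a b : ℕ) (M : Multiset ℕ) (hxy : x ≤ y)
      (h1 : Void B S (x ::ₘ x ::ₘ (M + ones a))) (h2 : Void B S (y ::ₘ y ::ₘ (M + ones b))) :
      Void B S (x ::ₘ y ::ₘ (M + ones ((a + b) / 2)))
  | quadratic (d a b c : ℕ) (M : Multiset ℕ) (hab : a + b ≤ d) (hac : a + c ≤ d) (hbc : b + c ≤ d)
      (h : Void B (triangle (2 * d - (a + b + c)))
        ((d - (b + c)) ::ₘ (d - (a + c)) ::ₘ (d - (a + b)) ::ₘ M)) :
      Void B (triangle d) (a ::ₘ b ::ₘ c ::ₘ M)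

/-- `(d, M)` is reached from `B`: with `ones p`, where `p` is the expected dimension of the space of
the forms of degree `d` with the multiplicities `M`, the pair belongs to `Void B`. -/
def Reached (B : ℕ → Multiset ℕ → Prop) (d : ℕ) (M : Multiset ℕ) : Prop :=
  Void B (triangle d) (M + ones ((d + 2).choose 2 - conditions M))

end Pool.Agent.Helper79.TC
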