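import Pool.Agent.Helper79.TC.Sound
import Pool.Graph.R_pool_sql_team_seeded_3997aac3.H200G.All
import Pool.Graph.R_pool_sql_team_seeded_64922ed1.X214.NV.Final
import Pool.Graph.R_seed8.TH545.SD.Dh
import Pool.Graph.R_seed8.TH759.EV.Pow
import Pool.Graph.R_seed8.TH167.TT.Nine

set_option autoImplicit false

/-!
# The classes from which we start, and the general statement
-/

namespace Pool.Agent.Helper79.TC

open MvPolynomial Finset Pool.Agent.TH641.UM
open Pool.Agent.V11310.CL (GE exists_point)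
open Pool.Agent.TH167.SHDefs
open Pool.Agent.X213.Forms (ForGeneral Carries Eng nonspecial_of)
open Pool.Agent.Y536.SH (Standard)

/-- The multiset of the multiplicities. -/
def mults {n : ℕ} (w : Fin n → ℕ) : Multiset ℕ := (univ : Finset (Fin n)).val.map w

/-- Some systems (degree `d`, multiplicities `M`) which are known not to be special; let `k` be the
number of the points: `k ≥ 10` and `√k d < ∑ M`; `k ≥ 10`, `M ≤ b + 1` and
`k + ∑ max M b < √k (d + 3)`; all multiplicities are `m` or `m + 1`, `m ≥ 1`, and `k ≥ 36` or `k = 13`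
or `k = 16`; `k = 21` and all multiplicities are equal; every nonzero multiplicity occurs at least
`2 ^ 29` times; `4 ≤ k ≤ 9` and any three of the multiplicities have sum at most `d`. -/
def Known (d : ℕ) (M : Multiset ℕ) : Prop :=
  (10 ≤ M.card ∧ √(M.card : ℝ) * d < (M.sum : ℝ)) ∨
  (10 ≤ M.card ∧ ∃ b : ℕ, (∀ a ∈ M, a ≤ b + 1) ∧
    (M.card : ℝ) + (((M.map fun a => max a b).sum : ℕ) : ℝ) < √(M.card : ℝ) * (d + 3)) ∨
  ((36 ≤ M.card ∨ M.card = 13 ∨ M.card = 16) ∧ ∃ m : ℕ, 1 ≤ m ∧ ∀ a ∈ M, a = m ∨ a = m + 1) ∨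
  (∃ m : ℕ, 1 ≤ m ∧ M = Multiset.replicate 21 m) ∨
  (∀ a ∈ M, a ≠ 0 → 2 ^ 29 ≤ M.count a) ∨
  (4 ≤ M.card ∧ M.card ≤ 9 ∧ ∀ a b c : ℕ, a ::ₘ b ::ₘ c ::ₘ 0 ≤ M → a + b + c ≤ d)

theorem forGeneral_of_ge {n d : ℕ} {w : Fin n → ℕ} (h : GE d w) :
    ForGeneral fun P : Fin n → Fin 2 → ℂ => ¬ Special P d w := by
  obtain ⟨F, hF, hF'⟩ := Pool.Agent.TH442.NF.to_open (d := d) (w := w)
    fun {K _ _ P} hP => h hP
  refine ⟨F.map (algebraMap ℚ ℂ), Pool.Agent.H932R3.map_ne_zero_of hF, fun P hP => ?_⟩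
  rw [MvPolynomial.eval_map] at hP
  exact nonspecial_of (hF' (L := ℂ) P hP)

/-- the expected dimension depends on the multiset of the multiplicities only -/
theorem ge_of_mults {n n' d : ℕ} {w : Fin n → ℕ} {w' : Fin n' → ℕ} (h : GE d w')
    (hw : mults w' = mults w) : GE d w := by
  obtain ⟨P, h0, hP⟩ := exists_point h
  have h1 := emp_of_pt h0 hP (p := (d + 2).choose 2 - conditions (ms w')) (by omega)
  have h2 : ms w' = ms w := by
    rw [ms_eq, ms_eq]
    exact hw
  rw [h2] at h1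
  intro K _ _ P hP
  exact ge_of_void h1 hP

theorem ge_of_open {n d : ℕ} {w : Fin n → ℕ}
    (h : ∃ F : MvPolynomial (Fin n × Fin 2) ℚ, F ≠ 0 ∧ ∀ {L : Type} [Field L] [CharZero L]
      (P : Fin n → Fin 2 → L), MvPolynomial.aeval (fun ij : Fin n × Fin 2 => P ij.1 ij.2) F ≠ 0 →
      Pool.Agent.H932R3.ExpDim L w P d) : GE d w := by
  obtain ⟨F, hF, hF'⟩ := h
  intro K _ _ P hP
  exact hF' P (fun h0 => hF (hP.eq_zero_of_aeval_eq_zero F h0))

theorem ge_of_gd {n d : ℕ} {w : Fin n → ℕ} (h : Pool.Agent.TH545.SD.GD d (mults w)) : GE d w := by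
  have h1 : mults w = ms w := (ms_eq w).symm
  rw [h1] at h
  have h2 := h.expDim
  intro K _ _ P hP
  exact ge_of_open h2 hP

theorem mem_mults {n : ℕ} (w : Fin n → ℕ) (i : Fin n) : w i ∈ mults w :=
  Multiset.mem_map_of_mem w (Finset.mem_univ i)

theorem families_of {n : ℕ} {w : Fin n → ℕ}
    (h : ∀ a ∈ mults w, a ≠ 0 → 2 ^ 29 ≤ (mults w).count a) : Pool.Agent.H200G.Families w := by
  classical
  refine ⟨w, fun i => ?_⟩
  rcases Nat.eq_zero_or_pos (w i) with h0 | h0
  · rw [h0]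
    simp
  · have h1 := h (w i) (mem_mults w i) h0.ne'
    have h2 : (mults w).count (w i) = (univ.filter fun j => w j = w i).card := by
      unfold mults
      rw [Multiset.count_map]
      simp only [eq_comm]
      rfl
    have h3 : ((univ.filter fun j => w j = w i ∧ w j ≠ 0).image w).card ≤ 1 := by
      refine Finset.card_le_one.2 ?_
      intro a ha b hb
      rw [mem_image] at ha hb
      obtain ⟨j, hj, rfl⟩ := ha
      obtain ⟨k, hk, rfl⟩ := hb
      rw [mem_filter] at hj hk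
      rw [hj.2.1, hk.2.1]
    have h4 : ∑ j ∈ univ.filter (fun j => w j = w i), w j ^ 2 =
        (univ.filter fun j => w j = w i).card * w i ^ 2 := by
      rw [Finset.sum_congr rfl (g := fun _ => w i ^ 2) (fun j hj => by
        rw [(mem_filter.1 hj).2]), Finset.sum_const, smul_eq_mul]
    rw [h4, ← h2]
    calc 2 ^ 29 * w i ^ 2 * ((univ.filter fun j => w j = w i ∧ w j ≠ 0).image w).card
        ≤ 2 ^ 29 * w i ^ 2 * 1 := Nat.mul_le_mul_left _ h3
      _ = 2 ^ 29 * w i ^ 2 := mul_one _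
      _ ≤ (mults w).count (w i) * w i ^ 2 := Nat.mul_le_mul_right _ h1

theorem known_nonspecial : NonSpecialSet Known := by
  intro d n w hw
  have hcard : (mults w).card = n := by
    unfold mults
    rw [Multiset.card_map]
    simp
  refine forGeneral_of_ge ?_
  have key : GE d w := by
    rcases hw with ⟨h1, h2⟩ | ⟨h1, b, h2, h3⟩ | ⟨h1, m, hm, h2⟩ | ⟨m, hm, h1⟩ | h1 | ⟨h1, h2, h3⟩
    · intro K _ _ P hP
      exact ge_of_gd (Pool.Agent.TH545.SD.GD.low h1 h2) hP
    · intro K _ _ P hP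
      exact ge_of_gd (Pool.Agent.TH545.SD.GD.high h1 h2 h3) hP
    · have h2' : ∀ i, w i = m ∨ w i = m + 1 := fun i => h2 _ (mem_mults w i)
      have h1' : 36 ≤ n ∨ n = 13 ∨ n = 16 := by
        have h1'' : 36 ≤ (mults w).card ∨ (mults w).card = 13 ∨ (mults w).card = 16 := h1
        rwa [hcard] at h1''
      rcases h1' with h1' | h1' | h1'
      · intro K _ _ P hP
        exact Pool.Agent.X214.NV.near_gen ⟨h1', m, hm, h2'⟩ hP d
      · obtain ⟨F, hF, hF'⟩ := Pool.Agent.TH759.EV.expDim_of_NU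
          (Pool.Agent.TH759.EV.NU_all (k := 0) (Or.inr (Or.inr (by omega)))) hm h2'
        intro K _ _ P hP
        exact ge_of_open ⟨F, hF, fun P hP => hF' P hP d⟩ hP
      · obtain ⟨F, hF, hF'⟩ := Pool.Agent.TH759.EV.expDim_of_NU
          (Pool.Agent.TH759.EV.NU_all (k := 0) (Or.inl (by omega))) hm h2'
        intro K _ _ P hP
        exact ge_of_open ⟨F, hF, fun P hP => hF' P hP d⟩ hP
    · have e : mults w = 21 • ({m} : Multiset ℕ) := by
        rw [Multiset.nsmul_singleton]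
        exact h1
      have h2 : Pool.Agent.TH545.SD.GD d (mults w) := by
        rw [e]
        exact Pool.Agent.TH545.SD.GD.uniform hm (Or.inr (Or.inr rfl))
      intro K _ _ P hP
      exact ge_of_gd h2 hP
    · intro K _ _ P hP
      exact Pool.Agent.H200G.fam_all (Or.inl (families_of h1)) hP
    · have h1' : 4 ≤ n := by rw [← hcard]; exact h1
      have h2' : n ≤ 9 := by rw [← hcard]; exact h2
      obtain ⟨r, rfl⟩ : ∃ r, n = r + 4 := ⟨n - 4, by omega⟩
      have hred : Pool.Agent.TH167.SH.Reduced d w := by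
        intro i j k hij hik hjk
        refine h3 _ _ _ ?_
        have h4 : (i ::ₘ j ::ₘ k ::ₘ 0 : Multiset (Fin (r + 4))) ≤
            (univ : Finset (Fin (r + 4))).val := by
          refine (Multiset.le_iff_subset ?_).2 fun x _ => Finset.mem_univ_val x
          simp [hij, hik, hjk]
        have h5 := Multiset.map_le_map (f := w) h4
        simpa using h5
      intro K _ _ P hP
      have h4 := Pool.Agent.TH167.TT.nine hP hred (by
        refine (Finset.card_le_univ _).trans ?_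
        rw [Fintype.card_fin]
        exact h2')
      rw [← Pool.Agent.TH167.SH.sys_eq] at h4
      show Module.finrank K ↥(sys P d w) = Nat.choose (d + 2) 2 - ∑ i, Nat.choose (w i + 1) 2
      omega
  intro K _ _ P hP
  exact key hP

theorem eng_reached {B : ℕ → Multiset ℕ → Prop} (hB : NonSpecialSet B) {r : ℕ} :
    Eng (r := r) fun d' w' => Reached B d' (mults w') := by
  intro K _ _ P hP d1 w1 _ h
  exact reached_ge hB h hP

theorem segre_reached {B : ℕ → Multiset ℕ → Prop} (hB : NonSpecialSet B) (r d : ℕ)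
    (w : Fin (r + 4) → ℕ) : ForGeneral fun P : Fin (r + 4) → Fin 2 → ℂ =>
    ((Reached B d (mults w) ∨ ∃ (d' : ℕ) (w' : Fin (r + 4) → ℕ), Carries d w d' w' ∧
      Standard d' w' ∧ Reached B d' (mults w')) → ¬ Special P d w) ∧
    (Special P d w →
      (∃ (G : MvPolynomial (Fin 3) ℂ) (e : ℕ) (u : Fin (r + 4) → ℕ), MinusOne P G e u ∧
        inter d w e u ≤ -2 ∧ ∀ f ∈ sys P d w, G ^ 2 ∣ f) ∨
      ∃ (d'' : ℕ) (w'' : Fin (r + 4) → ℕ) (k : ℕ) (G : Fin k → MvPolynomial (Fin 3) ℂ)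
        (e : Fin k → ℕ) (u : Fin k → Fin (r + 4) → ℕ) (d' : ℕ) (w' : Fin (r + 4) → ℕ),
        Decomp P d w d'' w'' G e u (fun _ => 1) ∧
        Relation.ReflTransGen Quadratic (d'', w'') (d', w') ∧ Standard d' w' ∧
        dimL P d' w' = dimL P d w ∧ Special P d' w' ∧ ¬ Reached B d' (mults w')) := by
  obtain ⟨F1, hF1, hF1'⟩ := Pool.Agent.X213.Forms.segre (eng_reached hB) d w
  obtain ⟨F2, hF2, hF2'⟩ : ForGeneral fun P : Fin (r + 4) → Fin 2 → ℂ =>
      Reached B d (mults w) → ¬ Special P d w := by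
    by_cases h : Reached B d (mults w)
    · obtain ⟨F, hF, hF'⟩ := forGeneral_of_ge (d := d) (w := w) (by
        intro K _ _ P hP
        exact reached_ge hB h hP)
      exact ⟨F, hF, fun P hP _ => hF' P hP⟩
    · exact ⟨1, one_ne_zero, fun P _ h' => absurd h' h⟩
  refine ⟨F1 * F2, mul_ne_zero hF1 hF2, fun P hP => ?_⟩
  rw [map_mul] at hP
  obtain ⟨h1, h2⟩ := hF1' P (left_ne_zero_of_mul hP)
  exact ⟨fun h => h.elim (hF2' P (right_ne_zero_of_mul hP)) h1, h2⟩

end Pool.Agent.Helper79.TC
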