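import Pool.Graph.R_seed8.TH793.UM.Pts
import Pool.Graph.R_seed8.TH552.BB.Common

set_option autoImplicit false

/-!
The matching lemma (collision of a group of points) for polynomials with exponents in an arbitrary
finite set. Adapted from `Pool.Graph.R_seed8.TH793.UM.Coll`, `...UM.Pts`, `...TH552.BB.Common`, where
the exponents are those of the plane curves of a given degree.
-/

namespace Pool.Agent.Helper79.TC

open MvPolynomial Pool.Agent.TH793.UM

/-- the exponents of `F` are in `V` -/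
def Sp {R : Type*} [CommSemiring R] (V : Set (Fin 2 →₀ ℕ)) (F : MvPolynomial (Fin 2) R) : Prop :=
  ∀ s, s ∉ V → coeff s F = 0

section coll

variable {L : Type*} [Field L] {ι₁ ι₂ : Type*} {w₁ : ι₁ → ℕ} {w₂ : ι₂ → ℕ} {A : ι₁ → Fin 2 → L}
  {p0 : Fin 2 → L} {Q : ι₂ → Fin 2 → L} {D : ℕ} (V : Set (Fin 2 →₀ ℕ))

/-- **The limit of a system when a group of points collides**, over the polynomials in the
parameter. -/
theorem coll_R (hD : 1 ≤ D)
    (ha : ∀ F : MvPolynomial (Fin 2) L, F.totalDegree ≤ D - 1 → (∀ i, Mul F (A i) (w₁ i)) → F = 0)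
    (hd : ∀ F : MvPolynomial (Fin 2) L, Sp V F → Mul F p0 (D + 1) →
      (∀ j, Mul F (Q j) (w₂ j)) → F = 0)
    (hx : ∀ F H : MvPolynomial (Fin 2) L, Sp V F → Mul F p0 D →
      (∀ j, Mul F (Q j) (w₂ j)) → H.totalDegree ≤ D → (∀ i, Mul H (A i) (w₁ i)) →
      homogeneousComponent D H = homogeneousComponent D (sh p0 F) → homogeneousComponent D H = 0)
    (G : MvPolynomial (Fin 2) (Polynomial L)) (hG : Sp V G)
    (h1 : ∀ i, Mul G (fun k => Polynomial.C (p0 k) + Polynomial.X * Polynomial.C (A i k)) (w₁ i))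
    (h2 : ∀ j, Mul G (fun k => Polynomial.C (Q j k)) (w₂ j)) :
    map (Polynomial.evalRingHom 0) G = 0 := by
  obtain ⟨t, ht⟩ : ∃ t : Polynomial L, t = Polynomial.X := ⟨_, rfl⟩
  obtain ⟨e0, he0⟩ : ∃ e0 : Polynomial L →+* L, e0 = Polynomial.evalRingHom 0 := ⟨_, rfl⟩
  have ht0 : t ≠ 0 := by rw [ht]; exact Polynomial.X_ne_zero
  have het : e0 t = 0 := by rw [he0, ht]; simp
  have heC : ∀ c : L, e0 (Polynomial.C c) = c := by intro c; rw [he0]; simp
  have hker : ∀ x : Polynomial L, e0 x = 0 ↔ t ∣ x := by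
    intro x
    rw [he0, ht, Polynomial.X_dvd_iff, Polynomial.coe_evalRingHom, Polynomial.coeff_zero_eq_eval_zero]
  rw [← he0]
  set G' := sh (fun k => Polynomial.C (p0 k)) G with hG'
  have hdiv : ∀ c, (∀ s : Fin 2 →₀ ℕ, t ^ c ∣ t ^ s.degree * coeff s G') →
      ∃ h : MvPolynomial (Fin 2) (Polynomial L), C (t ^ c) * h = sc t G' ∧
        (map e0 h).totalDegree ≤ c ∧ (∀ i, Mul (map e0 h) (A i) (w₁ i)) := by
    intro c hc
    have hdvd : C (t ^ c) ∣ sc t G' := by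
      rw [C_dvd_iff_dvd_coeff]
      intro s
      rw [coeff_sc]
      exact hc s
    obtain ⟨h, hh⟩ := hdvd
    have hcoe : ∀ s : Fin 2 →₀ ℕ, t ^ c * coeff s h = t ^ s.degree * coeff s G' := by
      intro s
      rw [← coeff_sc, hh, coeff_C_mul]
    refine ⟨h, hh.symm, ?_, ?_⟩
    · rw [dg_iff]
      intro s hs
      rw [coeff_map]
      obtain ⟨k, hk⟩ : ∃ k, s.degree = c + (k + 1) := ⟨s.degree - c - 1, by omega⟩
      have h3 := hcoe s
      rw [hk, pow_add, mul_assoc] at h3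
      rw [mul_left_cancel₀ (pow_ne_zero _ ht0) h3, map_mul, map_pow, het, zero_pow (by omega),
        zero_mul]
    · intro i s hs
      have e1 : A i = fun k => e0 (Polynomial.C (A i k)) := by
        funext k; rw [heC]
      rw [e1, ← map_sh, coeff_map]
      have h8 : t ^ c * coeff s (sh (fun k => Polynomial.C (A i k)) h) = 0 := by
        rw [← coeff_C_mul]
        have h9 : C (t ^ c) * sh (fun k => Polynomial.C (A i k)) h =
            sh (fun k => Polynomial.C (A i k)) (sc t G') := by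
          rw [hh, map_mul, sh_C]
        rw [h9, sh_sc, coeff_sc, hG', sh_sh]
        have h10 : ((fun k => t * Polynomial.C (A i k)) + fun k => Polynomial.C (p0 k)) =
            (fun k => Polynomial.C (p0 k) + Polynomial.X * Polynomial.C (A i k)) := by
          funext k
          rw [Pi.add_apply, ht, add_comm]
        rw [h10, h1 i s hs, mul_zero]
      rw [(mul_eq_zero.1 h8).resolve_left (pow_ne_zero _ ht0), map_zero]
  have key : ∀ c ≤ D, ∀ s : Fin 2 →₀ ℕ, t ^ c ∣ t ^ s.degree * coeff s G' := by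
    intro c
    induction c with
    | zero => intro _ s; simp
    | succ c ih =>
      intro hc s
      obtain ⟨h, e1, e2, e3⟩ := hdiv c (ih (by omega))
      have h0 : map e0 h = 0 := ha _ (by omega) e3
      have h4 : t ∣ coeff s h := by
        rw [← hker, ← coeff_map, h0, coeff_zero]
      rw [← coeff_sc, ← e1, coeff_C_mul, pow_succ]
      exact mul_dvd_mul_left _ h4
  obtain ⟨h, e1, e2, e3⟩ := hdiv D (key D le_rfl)
  have hF1 : Sp V (map e0 G) := by
    intro s hs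
    rw [coeff_map, hG s hs, map_zero]
  have hcoef : ∀ s, coeff s (sh p0 (map e0 G)) = e0 (coeff s G') := by
    intro s
    rw [hG', ← coeff_map, map_sh]
    congr 3
    funext k
    rw [heC]
  have hF2 : Mul (map e0 G) p0 D := by
    intro s hs
    rw [hcoef, hker]
    obtain ⟨k, hk⟩ : ∃ k, D = s.degree + (k + 1) := ⟨D - s.degree - 1, by omega⟩
    have h4 := key D le_rfl s
    rw [hk, pow_add] at h4
    exact (dvd_pow_self t (Nat.succ_ne_zero k)).trans
      ((mul_dvd_mul_iff_left (pow_ne_zero _ ht0)).1 h4)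
  have hF3 : ∀ j, Mul (map e0 G) (Q j) (w₂ j) := by
    intro j s hs
    have e4 : Q j = fun k => e0 (Polynomial.C (Q j k)) := by
      funext k; rw [heC]
    rw [e4, ← map_sh, coeff_map, h2 j s hs, map_zero]
  have hlead : homogeneousComponent D (map e0 h) = homogeneousComponent D (sh p0 (map e0 G)) := by
    ext s
    rw [coeff_homogeneousComponent, coeff_homogeneousComponent]
    split_ifs with hs
    · rw [hcoef, coeff_map]
      have h4 := congrArg (coeff s) e1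
      rw [coeff_C_mul, coeff_sc, hs] at h4
      rw [mul_left_cancel₀ (pow_ne_zero _ ht0) h4]
    · rfl
  have h0 := hx _ _ hF1 hF2 hF3 e2 e3 hlead
  apply hd _ hF1 _ hF3
  intro s hs
  rcases Nat.lt_or_ge s.degree D with h7 | h7
  · exact hF2 s h7
  · rw [hlead] at h0
    exact hc_eq_zero_iff.1 h0 s (by omega)

/-- the same over the field of fractions -/
theorem coll_K {K : Type*} [Field K] [Algebra (Polynomial L) K] [IsFractionRing (Polynomial L) K]
    (hD : 1 ≤ D)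
    (ha : ∀ F : MvPolynomial (Fin 2) L, F.totalDegree ≤ D - 1 → (∀ i, Mul F (A i) (w₁ i)) → F = 0)
    (hd : ∀ F : MvPolynomial (Fin 2) L, Sp V F → Mul F p0 (D + 1) →
      (∀ j, Mul F (Q j) (w₂ j)) → F = 0)
    (hx : ∀ F H : MvPolynomial (Fin 2) L, Sp V F → Mul F p0 D →
      (∀ j, Mul F (Q j) (w₂ j)) → H.totalDegree ≤ D → (∀ i, Mul H (A i) (w₁ i)) →
      homogeneousComponent D H = homogeneousComponent D (sh p0 F) → homogeneousComponent D H = 0)
    (F : MvPolynomial (Fin 2) K) (hF : Sp V F)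
    (h1 : ∀ i, Mul F (fun k => algebraMap (Polynomial L) K
      (Polynomial.C (p0 k) + Polynomial.X * Polynomial.C (A i k))) (w₁ i))
    (h2 : ∀ j, Mul F (fun k => algebraMap (Polynomial L) K (Polynomial.C (Q j k))) (w₂ j)) :
    F = 0 := by
  classical
  by_contra hne
  have hinj : Function.Injective (algebraMap (Polynomial L) K) := IsFractionRing.injective _ _
  -- clear denominators
  obtain ⟨b, hb⟩ := IsLocalization.exist_integer_multiples_of_finset (nonZeroDivisors (Polynomial L))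
    (F.support.image fun s => coeff s F)
  have hb' : ∀ s, ∃ r : Polynomial L, algebraMap (Polynomial L) K r =
      algebraMap (Polynomial L) K b * coeff s F := by
    intro s
    by_cases hs : coeff s F = 0
    · exact ⟨0, by rw [hs, map_zero, mul_zero]⟩
    · obtain ⟨r, hr⟩ := hb (coeff s F) (Finset.mem_image_of_mem _ (mem_support_iff.2 hs))
      refine ⟨r, ?_⟩
      rw [hr, Algebra.smul_def]
  choose r hr using hb'
  have hb0 : algebraMap (Polynomial L) K b ≠ 0 := by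
    rw [Ne, map_eq_zero_iff _ hinj]
    exact nonZeroDivisors.coe_ne_zero b
  set G : MvPolynomial (Fin 2) (Polynomial L) := ∑ s ∈ F.support, monomial s (r s) with hG
  have hGc : ∀ s, algebraMap (Polynomial L) K (coeff s G) =
      algebraMap (Polynomial L) K b * coeff s F := by
    intro s
    rw [hG, coeff_sum]
    simp_rw [coeff_monomial]
    rw [Finset.sum_ite_eq']
    split_ifs with hs
    · exact hr s
    · rw [notMem_support_iff.1 hs, map_zero, mul_zero]
  have hGF : map (algebraMap (Polynomial L) K) G = C (algebraMap (Polynomial L) K b) * F := by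
    ext s
    rw [coeff_map, coeff_C_mul, hGc]
  have hG0 : G ≠ 0 := by
    intro h0
    apply hne
    have h3 : C (algebraMap (Polynomial L) K b) * F = 0 := by rw [← hGF, h0, map_zero]
    exact (mul_eq_zero.1 h3).resolve_left (fun h => hb0 (C_eq_zero.1 h))
  -- divide by the parameter
  have hnu : ¬ IsUnit (C (Polynomial.X : Polynomial L) : MvPolynomial (Fin 2) (Polynomial L)) := by
    rw [MvPolynomial.isUnit_iff_eq_C_of_isReduced]
    rintro ⟨u, hu, hu'⟩
    have := C_injective (Fin 2) (Polynomial L) hu'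
    rw [← this] at hu
    exact Polynomial.not_isUnit_X hu
  obtain ⟨G0, hG0', hndvd⟩ :=
    (FiniteMultiplicity.of_not_isUnit hnu hG0).exists_eq_pow_mul_and_not_dvd
  set v := multiplicity (C (Polynomial.X : Polynomial L) : MvPolynomial (Fin 2) (Polynomial L)) G
  have hXv : (Polynomial.X : Polynomial L) ^ v ≠ 0 := pow_ne_zero _ Polynomial.X_ne_zero
  have hG1 : G = C ((Polynomial.X : Polynomial L) ^ v) * G0 := by rw [map_pow]; exact hG0'
  have hmul : ∀ (P : Fin 2 → Polynomial L) (m : ℕ),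
      Mul F (fun k => algebraMap (Polynomial L) K (P k)) m → Mul G0 P m := by
    intro P m hm s hs
    have h3 : algebraMap (Polynomial L) K (coeff s (sh P G)) = 0 := by
      rw [← coeff_map, map_sh, hGF, map_mul, sh_C, coeff_C_mul, hm s hs, mul_zero]
    rw [map_eq_zero_iff _ hinj, hG1, map_mul, sh_C, coeff_C_mul] at h3
    exact (mul_eq_zero.1 h3).resolve_left hXv
  apply hndvd
  have h4 := coll_R V hD ha hd hx G0 (by
    intro s hs
    have h5 := hGc s
    rw [hF s hs, mul_zero, map_eq_zero_iff _ hinj, hG1, coeff_C_mul] at h5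
    exact (mul_eq_zero.1 h5).resolve_left hXv) (fun i => hmul _ _ (h1 i)) (fun j => hmul _ _ (h2 j))
  rw [C_dvd_iff_dvd_coeff]
  intro s
  have h5 := congrArg (coeff s) h4
  rw [coeff_map, coeff_zero, Polynomial.coe_evalRingHom, ← Polynomial.coeff_zero_eq_eval_zero] at h5
  exact Polynomial.X_dvd_iff.2 h5

end coll

section points

open Pool.Agent.TH176.Nag Pool.Agent.TH603.Sur Pool.Agent.TH552.BB Module

/-- the exponents of `S` -/
def VS (S : Set (ℤ × ℤ)) : Set (Fin 2 →₀ ℕ) := {s | ((s 0 : ℤ), (s 1 : ℤ)) ∈ S}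

/-- emptiness, for polynomials, at algebraically independent points -/
theorem empty_of' {ι : Type} [Finite ι] {w : ι → ℕ} {S : Set (ℤ × ℤ)} (hfin : S.Finite)
    (hq : ∀ m ∈ S, 0 ≤ m.1 ∧ 0 ≤ m.2) (h : Emp w S)
    {P : ι → Fin 2 → ℂ} (hP : AlgebraicIndependent ℚ (fun q : ι × Fin 2 => P q.1 q.2))
    (F : MvPolynomial (Fin 2) ℂ) (hF : Sp (VS S) F) (hm : ∀ i, Mul F (P i) (w i)) :
    F = 0 := by
  have hne : ∀ i j, P i j ≠ 0 := fun i j => hP.ne_zero (i, j)
  have h1 := Pool.Agent.TH15.Nag.Emp_generic hfin hq h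
    (x := fun i => P i 0) (y := fun i => P i 1) (by
      convert hP using 1
      funext q
      obtain ⟨i, j⟩ := q
      fin_cases j <;> rfl)
  apply toL_eq_zero
  apply h1
  · intro m hm
    have hm' : (toL ℂ F).coeff m ≠ 0 := by simpa using hm
    rw [toL_coeff] at hm'
    obtain ⟨s, hs, hs'⟩ := Finset.exists_ne_zero_of_sum_ne_zero hm'
    have h1 : ((s 0 : ℤ), (s 1 : ℤ)) = m := by
      by_contra h; rw [if_neg h] at hs'; exact hs' rfl
    by_contra hmS
    exact (mem_support_iff.1 hs) (hF s (fun hc => hmS (h1 ▸ hc)))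
  · intro i
    refine LM_of_pt (hne i 0) (hne i 1) (P := P i) rfl rfl ?_
    rw [Pool.Agent.H932R5.mem_pt_pow_iff]
    exact hm i

/-- the polynomials with exponents in `V` -/
noncomputable def SpS (V : Set (Fin 2 →₀ ℕ)) : Submodule ℂ (MvPolynomial (Fin 2) ℂ) where
  carrier := {F | Sp V F}
  add_mem' := by
    intro F G hF hG s hs
    rw [coeff_add, hF s hs, hG s hs, add_zero]
  zero_mem' := by
    intro s _
    rw [coeff_zero]
  smul_mem' := by
    intro c F hF s hs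
    rw [coeff_smul, hF s hs, smul_zero]

/-- the points, and the spaces of leading forms -/
theorem common' {ι₁ ι₂ : Type} [Finite ι₁] [Finite ι₂] (w₁ : ι₁ → ℕ) (w₂ : ι₂ → ℕ)
    {S : Set (ℤ × ℤ)} (hfin : S.Finite) (hpos : ∀ m ∈ S, 0 ≤ m.1 ∧ 0 ≤ m.2)
    (D p q : ℕ)
    (h1 : Emp (Sum.elim w₁ (fun _ : Fin p => 1)) (TZ D)) (h2 : Emp w₁ (TZ (D - 1)))
    (h3 : Emp (Sum.elim (fun o : Option ι₂ => o.elim D w₂) (fun _ : Fin q => 1)) S)
    (h4 : Emp (fun o : Option ι₂ => o.elim (D + 1) w₂) S) :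
    ∃ (A : ι₁ → Fin 2 → ℂ) (p0 : Fin 2 → ℂ) (Q : ι₂ → Fin 2 → ℂ)
      (W V : Submodule ℂ (MvPolynomial (Fin 2) ℂ)),
      (∀ i, p0 i ≠ 0) ∧ (∀ j i, Q j i ≠ 0) ∧
      (∀ T ∈ W, T.IsHomogeneous D) ∧ (∀ T ∈ V, T.IsHomogeneous D) ∧
      finrank ℂ W ≤ p ∧ finrank ℂ V ≤ q ∧
      (∀ F : MvPolynomial (Fin 2) ℂ, F.totalDegree ≤ D - 1 → (∀ i, Mul F (A i) (w₁ i)) → F = 0) ∧
      (∀ F : MvPolynomial (Fin 2) ℂ, F.totalDegree ≤ D → (∀ i, Mul F (A i) (w₁ i)) →
        homogeneousComponent D F ∈ W) ∧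
      (∀ F : MvPolynomial (Fin 2) ℂ, Sp (VS S) F → Mul F p0 D →
        (∀ j, Mul F (Q j) (w₂ j)) → homogeneousComponent D (sh p0 F) ∈ V) ∧
      (∀ F : MvPolynomial (Fin 2) ℂ, Sp (VS S) F → Mul F p0 (D + 1) →
        (∀ j, Mul F (Q j) (w₂ j)) → F = 0) := by
  classical
  obtain ⟨a, ha⟩ : ∃ a : ι₁ ⊕ Fin p → Fin 2 → ℂ,
      AlgebraicIndependent ℚ (fun q : (ι₁ ⊕ Fin p) × Fin 2 => a q.1 q.2) := by
    obtain ⟨f, hf⟩ := Pool.Agent.TH698.NagT3.exists_indep ((ι₁ ⊕ Fin p) × Fin 2)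
    exact ⟨fun i j => f (i, j), hf⟩
  obtain ⟨b, hb⟩ : ∃ b : Option ι₂ ⊕ Fin q → Fin 2 → ℂ,
      AlgebraicIndependent ℚ (fun r : (Option ι₂ ⊕ Fin q) × Fin 2 => b r.1 r.2) := by
    obtain ⟨g, hg⟩ := Pool.Agent.TH698.NagT3.exists_indep ((Option ι₂ ⊕ Fin q) × Fin 2)
    exact ⟨fun i j => g (i, j), hg⟩
  have hbne : ∀ i j, b i j ≠ 0 := fun i j => hb.ne_zero (i, j)
  have ha' : AlgebraicIndependent ℚ (fun q : ι₁ × Fin 2 => a (Sum.inl q.1) q.2) :=
    ha.comp (fun q : ι₁ × Fin 2 => ((Sum.inl q.1 : ι₁ ⊕ Fin p), q.2)) (by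
      rintro ⟨i, j⟩ ⟨i', j'⟩ h
      simpa using h)
  have hb' : AlgebraicIndependent ℚ (fun r : Option ι₂ × Fin 2 => b (Sum.inl r.1) r.2) :=
    hb.comp (fun r : Option ι₂ × Fin 2 => ((Sum.inl r.1 : Option ι₂ ⊕ Fin q), r.2)) (by
      rintro ⟨i, j⟩ ⟨i', j'⟩ h
      simpa using h)
  -- the spaces
  let U₁ : Submodule ℂ (MvPolynomial (Fin 2) ℂ) :=
    restrictTotalDegree (Fin 2) ℂ D ⊓ ⨅ i, MulS (a (Sum.inl i)) (w₁ i)
  let U₂ : Submodule ℂ (MvPolynomial (Fin 2) ℂ) :=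
    SpS (VS S) ⊓ (MulS (b (Sum.inl none)) D ⊓
      ⨅ j, MulS (b (Sum.inl (some j))) (w₂ j))
  have hU₁ : ∀ F, F ∈ U₁ ↔ F.totalDegree ≤ D ∧ ∀ i, Mul F (a (Sum.inl i)) (w₁ i) := by
    intro F
    rw [Submodule.mem_inf, mem_restrictTotalDegree, Submodule.mem_iInf]
    rfl
  have hU₂ : ∀ F, F ∈ U₂ ↔ Sp (VS S) F ∧ Mul F (b (Sum.inl none)) D ∧
      ∀ j, Mul F (b (Sum.inl (some j))) (w₂ j) := by
    intro F
    rw [Submodule.mem_inf, Submodule.mem_inf, Submodule.mem_iInf]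
    rfl
  obtain ⟨hfd1, hr1⟩ := finrank_le (p := p) U₁ (fun i => a (Sum.inr i)) (by
    intro F hF hv
    obtain ⟨hF1, hF2⟩ := (hU₁ F).1 hF
    refine empty_of (P := a) h1 ha F hF1 ?_
    rintro (i | i)
    · exact hF2 i
    · exact Mul_one_iff.2 (hv i))
  obtain ⟨hfd2, hr2⟩ := finrank_le (p := q) U₂ (fun i => b (Sum.inr i)) (by
    intro F hF hv
    obtain ⟨hF1, hF2, hF3⟩ := (hU₂ F).1 hF
    refine empty_of' (P := b) hfin hpos h3 hb F hF1 ?_
    rintro ((_ | j) | i)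
    · exact hF2
    · exact hF3 j
    · exact Mul_one_iff.2 (hv i))
  refine ⟨fun i => a (Sum.inl i), b (Sum.inl none), fun j => b (Sum.inl (some j)),
    U₁.map (homogeneousComponent D),
    U₂.map ((homogeneousComponent D).comp (sh (b (Sum.inl none))).toLinearMap), ?_⟩
  refine ⟨?_, ?_, ?_, ?_, ?_, ?_, ?_, ?_, ?_, ?_⟩
  · intro i
    exact hbne (Sum.inl none) i
  · intro j i
    exact hbne (Sum.inl (some j)) i
  · rintro _ ⟨F, -, rfl⟩
    exact homogeneousComponent_isHomogeneous D F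
  · rintro _ ⟨F, -, rfl⟩
    exact homogeneousComponent_isHomogeneous D _
  · exact (Submodule.finrank_map_le _ U₁).trans hr1
  · exact (Submodule.finrank_map_le _ U₂).trans hr2
  · intro F hF hm
    exact empty_of (P := fun i => a (Sum.inl i)) h2 ha' F hF hm
  · intro F hF hm
    exact Submodule.mem_map_of_mem ((hU₁ F).2 ⟨hF, hm⟩)
  · intro F hF hm0 hm
    exact ⟨F, (hU₂ F).2 ⟨hF, hm0, hm⟩, rfl⟩
  · intro F hF hm0 hm
    refine empty_of' (P := fun o => b (Sum.inl o)) hfin hpos h4 hb' F hF ?_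
    rintro (_ | j)
    · exact hm0
    · exact hm j

/-- **the matching lemma**, from the linear algebra at one configuration of points -/
theorem match_of_points' {ι₁ ι₂ : Type} {w₁ : ι₁ → ℕ} {w₂ : ι₂ → ℕ} {D : ℕ} (hD : 1 ≤ D)
    {S : Set (ℤ × ℤ)} (hpos : ∀ m ∈ S, 0 ≤ m.1 ∧ 0 ≤ m.2)
    (A : ι₁ → Fin 2 → ℂ) (p0 : Fin 2 → ℂ) (Q : ι₂ → Fin 2 → ℂ)
    (W V : Submodule ℂ (MvPolynomial (Fin 2) ℂ)) (hp0 : ∀ i, p0 i ≠ 0) (hQ : ∀ j i, Q j i ≠ 0)
    (hW : ∀ T ∈ W, T.IsHomogeneous D) (hV : ∀ T ∈ V, T.IsHomogeneous D)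
    (hdim : Module.finrank ℂ W + Module.finrank ℂ V ≤ D + 1)
    (c1 : ∀ F : MvPolynomial (Fin 2) ℂ, F.totalDegree ≤ D - 1 → (∀ i, Mul F (A i) (w₁ i)) → F = 0)
    (c2 : ∀ F : MvPolynomial (Fin 2) ℂ, F.totalDegree ≤ D → (∀ i, Mul F (A i) (w₁ i)) →
      homogeneousComponent D F ∈ W)
    (c3 : ∀ F : MvPolynomial (Fin 2) ℂ, Sp (VS S) F → Mul F p0 D →
      (∀ j, Mul F (Q j) (w₂ j)) → homogeneousComponent D (sh p0 F) ∈ V)
    (c4 : ∀ F : MvPolynomial (Fin 2) ℂ, Sp (VS S) F → Mul F p0 (D + 1) →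
      (∀ j, Mul F (Q j) (w₂ j)) → F = 0) :
    Emp (Sum.elim w₁ w₂) S := by
  obtain ⟨g, hg, hWV⟩ := Pool.Agent.TH552.BB.transversal_forms W V hW hV hdim
  have hinj : ∀ F : MvPolynomial (Fin 2) ℂ, li g F = 0 → F = 0 := by
    intro F hF
    have h1 : li g⁻¹ (li g F) = F := by
      rw [li_li, Matrix.mul_nonsing_inv g (Ne.isUnit hg), li_one]
    rw [← h1, hF, map_zero]
  have ha : ∀ F : MvPolynomial (Fin 2) ℂ, F.totalDegree ≤ D - 1 →
      (∀ i, Mul F (g.mulVec (A i)) (w₁ i)) → F = 0 := fun F hF hm =>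
    hinj F (c1 _ (dg_li hF) fun i => Mul_li (hm i))
  have hx : ∀ F H : MvPolynomial (Fin 2) ℂ, Sp (VS S) F → Mul F p0 D →
      (∀ j, Mul F (Q j) (w₂ j)) → H.totalDegree ≤ D → (∀ i, Mul H (g.mulVec (A i)) (w₁ i)) →
      homogeneousComponent D H = homogeneousComponent D (sh p0 F) →
      homogeneousComponent D H = 0 := by
    intro F H hF hF0 hFQ hH hHA he
    have h1 := c3 F hF hF0 hFQ
    rw [← he] at h1
    have h2 := c2 (li g H) (dg_li hH) fun i => Mul_li (hHA i)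
    rw [hc_li] at h2
    exact (hWV _ h2 _ h1 rfl).2
  have hinj' : Function.Injective (algebraMap (Polynomial ℂ) (FractionRing (Polynomial ℂ))) :=
    IsFractionRing.injective _ _
  have hc0 : CharZero (FractionRing (Polynomial ℂ)) := charZero_of_injective_algebraMap hinj'
  set xs : ι₁ ⊕ ι₂ → Fin 2 → FractionRing (Polynomial ℂ) :=
    Sum.elim (fun i k => algebraMap (Polynomial ℂ) (FractionRing (Polynomial ℂ))
      (Polynomial.C (p0 k) + Polynomial.X * Polynomial.C (g.mulVec (A i) k)))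
      (fun j k => algebraMap (Polynomial ℂ) (FractionRing (Polynomial ℂ)) (Polynomial.C (Q j k)))
    with hxs
  have hne : ∀ a k, xs a k ≠ 0 := by
    rintro (i | j) k
    · rw [hxs]
      simp only [Sum.elim_inl]
      rw [Ne, map_eq_zero_iff _ hinj']
      intro h0
      have h1 := congrArg (Polynomial.eval 0) h0
      simp at h1
      exact hp0 k h1
    · rw [hxs]
      simp only [Sum.elim_inr]
      rw [Ne, map_eq_zero_iff _ hinj', Polynomial.C_eq_zero]
      exact hQ j k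
  refine ⟨FractionRing (Polynomial ℂ), inferInstance, hc0, fun a => xs a 0, fun a => xs a 1,
    fun a => hne a 0, fun a => hne a 1, fun f hfS hfL => ?_⟩
  have hf : ∀ m ∈ f.support, 0 ≤ m.1 ∧ 0 ≤ m.2 := fun m hm => hpos m (hfS (Finset.mem_coe.2 hm))
  apply toP_zero hf
  have hm : ∀ a, Mul (toP f) (xs a) (Sum.elim w₁ w₂ a) := fun a => Mul_toP (hne a) (hfL a) hf
  have hsp : Sp (VS S) (toP f) := by
    intro s hs
    rw [coeff_toP hf]
    by_contra hne
    exact hs (hfS (Finset.mem_coe.2 (Finsupp.mem_support_iff.2 hne)))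
  exact coll_K (VS S) hD ha c4 hx (toP f) hsp (fun i => hm (Sum.inl i)) (fun j => hm (Sum.inr j))

/-- **The matching lemma** for an arbitrary finite set of exponents in the quadrant. -/
theorem match_quad {ι₁ ι₂ : Type} [Finite ι₁] [Finite ι₂] (w₁ : ι₁ → ℕ) (w₂ : ι₂ → ℕ)
    {S : Set (ℤ × ℤ)} (hfin : S.Finite) (hpos : ∀ m ∈ S, 0 ≤ m.1 ∧ 0 ≤ m.2)
    (D p q : ℕ) (hD : 1 ≤ D) (hpq : p + q ≤ D + 1)
    (h1 : Emp (Sum.elim w₁ (fun _ : Fin p => 1)) (TZ D)) (h2 : Emp w₁ (TZ (D - 1)))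
    (h3 : Emp (Sum.elim (fun o : Option ι₂ => o.elim D w₂) (fun _ : Fin q => 1)) S)
    (h4 : Emp (fun o : Option ι₂ => o.elim (D + 1) w₂) S) : Emp (Sum.elim w₁ w₂) S := by
  obtain ⟨A, p0, Q, W, V, hp0, hQ, hW, hV, hWp, hVq, c1, c2, c3, c4⟩ :=
    common' w₁ w₂ hfin hpos D p q h1 h2 h3 h4
  exact match_of_points' hD hpos A p0 Q W V hp0 hQ hW hV (by omega) c1 c2 c3 c4

end points

end Pool.Agent.Helper79.TC
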