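import Pool.Agent.Helper79.TC.Def
import Pool.Agent.Helper79.TC.Sup
import Pool.Graph.R_pool_sql_team_seeded_843ab51a.V11310.CL.Torus
import Pool.Graph.R_seed8.TH2.NU.Multi
import Pool.Graph.R_seed8.Y205.FW.Acc
import Pool.Graph.R_seed8.Y205.MD.Sub

set_option autoImplicit false

/-!
# The rules of the calculus hold for the systems without curves
-/

namespace Pool.Agent.Helper79.TC

open Finset Pool.Agent.TH176.Nag Pool.Agent.TH603.Sur Pool.Agent.TH641.UM Pool.Agent.Y205.MD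
  Pool.Agent.Y205.FW

theorem ones_eq (k : ℕ) : ones k = ms (fun _ : Fin k => 1) := by
  rw [ms_fin, Multiset.nsmul_singleton]
  rfl

theorem exists_vec (M : Multiset ℕ) : ∃ (n : ℕ) (w : Fin n → ℕ), ms w = M :=
  ⟨_, _, exists_fam M⟩

theorem EmpM_ones {ι : Type} [Fintype ι] {w : ι → ℕ} {c : ℕ} {S : Set (ℤ × ℤ)} :
    EmpM (ms w + ones c) S ↔ Emp (Sum.elim w (fun _ : Fin c => 1)) S :=
  EmpM_iff (by rw [ms_sum, ← ones_eq]) S

theorem EmpM_cons {ι : Type} [Fintype ι] {w : ι → ℕ} {a : ℕ} {S : Set (ℤ × ℤ)} :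
    EmpM (a ::ₘ ms w) S ↔ Emp (fun o : Option ι => o.elim a w) S :=
  EmpM_iff (by rw [ms_option, Multiset.singleton_add]) S

theorem EmpM_add {ι κ : Type} [Fintype ι] [Fintype κ] {w : ι → ℕ} {v : κ → ℕ} {S : Set (ℤ × ℤ)} :
    EmpM (ms w + ms v) S ↔ Emp (Sum.elim w v) S :=
  EmpM_iff (by rw [ms_sum]) S

theorem r_sub {S S' : Finset (ℤ × ℤ)} {M M' : Multiset ℕ} (hS : S' ⊆ S) (hM : M ≤ M')
    (h : EmpM M (↑S : Set (ℤ × ℤ))) : EmpM M' (↑S' : Set (ℤ × ℤ)) :=
  (h.mono hM).mono_set (by exact_mod_cast hS)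

theorem r_raise {S : Set (ℤ × ℤ)} {a b : ℕ} {M : Multiset ℕ} (hab : a ≤ b)
    (h : EmpM (a ::ₘ M) S) : EmpM (b ::ₘ M) S := by
  obtain ⟨n, w, rfl⟩ := exists_vec M
  rw [EmpM_cons] at h ⊢
  refine Emp_emb id Function.injective_id ?_ h
  rintro (_ | i)
  · exact hab
  · exact le_rfl

theorem r_exponent {S : Finset (ℤ × ℤ)} {M : Multiset ℕ} (m : ℤ × ℤ)
    (h : EmpM M (↑S : Set (ℤ × ℤ))) : EmpM (M + ones 1) (↑(insert m S) : Set (ℤ × ℤ)) := by
  obtain ⟨n, w, rfl⟩ := exists_vec M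
  rw [EmpM_ms] at h
  rw [EmpM_ones, coe_insert]
  exact Emp_insert (k := 0) m (Emp_zero_iff.2 h)

/-- coranks and simple points -/
theorem crk_of_ones {ι : Type} {w : ι → ℕ} (c : ℕ) : ∀ {S : Finset (ℤ × ℤ)},
    Emp (Sum.elim w (fun _ : Fin c => 1)) (↑S : Set (ℤ × ℤ)) →
      ∃ T ⊆ S, S.card ≤ T.card + c ∧ Emp w (↑T : Set (ℤ × ℤ)) := by
  induction c with
  | zero =>
    intro S h
    exact ⟨S, Subset.refl _, le_rfl, Emp_zero_iff.1 h⟩
  | succ c ih =>
    intro S h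
    rcases S.eq_empty_or_nonempty with hS | hS
    · subst hS
      exact ⟨∅, Subset.refl _, by simp, Emp_nil w⟩
    · obtain ⟨m, hm, h1⟩ := Emp_erase hS h
      obtain ⟨T, hT1, hT2, hT3⟩ := ih h1
      refine ⟨T, hT1.trans (erase_subset _ _), ?_, hT3⟩
      rw [card_erase_of_mem hm] at hT2
      omega

theorem crk_iff {ι : Type} {w : ι → ℕ} {c : ℕ} {S : Finset (ℤ × ℤ)} :
    Emp (Sum.elim w (fun _ : Fin c => 1)) (↑S : Set (ℤ × ℤ)) ↔ crk S w ≤ c := by
  constructor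
  · intro h
    obtain ⟨T, h1, h2, h3⟩ := crk_of_ones c h
    have h4 := card_le_card h1
    have h5 : crk S w ≤ S.card - T.card := crk_le ⟨T, h1, by omega, h3⟩
    omega
  · intro h
    obtain ⟨T, h1, h2, h3⟩ := crk_spec S w
    have h4 := Emp_union h3 (S \ T)
    rw [union_sdiff_of_subset h1] at h4
    have h5 : (S \ T).card ≤ c := by
      rw [card_sdiff_of_subset h1]
      omega
    refine Emp_emb (Sum.map id (Fin.castLE h5)) ?_ ?_ h4
    · exact Sum.map_injective.2 ⟨Function.injective_id, Fin.castLE_injective h5⟩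
    · rintro (i | i)
      · exact le_rfl
      · exact le_rfl

theorem crkM_iff {M : Multiset ℕ} {c : ℕ} {S : Finset (ℤ × ℤ)} :
    EmpM (M + ones c) (↑S : Set (ℤ × ℤ)) ↔ crkM S M ≤ c := by
  obtain ⟨n, w, rfl⟩ := exists_vec M
  rw [EmpM_ones, crk_iff]
  have h : crkM S (ms w) = crk S w := by
    refine crkM_eq fun t => ?_
    unfold ms
    rw [← Multiset.coe_mapAddMonoidHom, map_sum, ← Multiset.coe_sumAddMonoidHom, map_sum]
    simp
  rw [h]

/-- translations -/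
noncomputable def shft (N : ℤ) (S : Finset (ℤ × ℤ)) : Finset (ℤ × ℤ) :=
  S.image fun m => (m.1 + N, m.2 + N)

theorem mem_shft {N : ℤ} {S : Finset (ℤ × ℤ)} {m : ℤ × ℤ} :
    m ∈ shft N S ↔ (m.1 - N, m.2 - N) ∈ S := by
  unfold shft
  rw [mem_image]
  constructor
  · rintro ⟨m', hm', rfl⟩
    simpa using hm'
  · intro h
    exact ⟨_, h, by simp⟩

theorem emp_shft {ι : Type} {w : ι → ℕ} (N : ℤ) (S : Finset (ℤ × ℤ)) :
    Emp w (↑(shft N S) : Set (ℤ × ℤ)) ↔ Emp w (↑S : Set (ℤ × ℤ)) := by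
  constructor
  · intro h
    refine h.comap 1 0 0 1 N N (by norm_num) fun m hm => ?_
    rw [mem_coe, mem_shft]
    simpa using hm
  · intro h
    refine h.comap 1 0 0 1 (-N) (-N) (by norm_num) fun m hm => ?_
    rw [mem_coe, mem_shft] at hm
    simpa [sub_eq_add_neg] using hm

theorem empM_shft {M : Multiset ℕ} (N : ℤ) (S : Finset (ℤ × ℤ)) :
    EmpM M (↑(shft N S) : Set (ℤ × ℤ)) ↔ EmpM M (↑S : Set (ℤ × ℤ)) := emp_shft N S

theorem exists_shft (S : Finset (ℤ × ℤ)) : ∃ N : ℤ, ∀ m ∈ shft N S, 0 ≤ m.1 ∧ 0 ≤ m.2 := by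
  refine ⟨∑ m ∈ S, ((m.1.natAbs : ℤ) + m.2.natAbs), fun m hm => ?_⟩
  rw [mem_shft] at hm
  have h1 := single_le_sum (f := fun m : ℤ × ℤ => ((m.1.natAbs : ℤ) + m.2.natAbs))
    (fun _ _ => by positivity) hm
  simp only at h1
  omega

theorem r_lower {S : Finset (ℤ × ℤ)} {M : Multiset ℕ} {l : ℕ}
    (h : EmpM ((l + 1) ::ₘ M) (↑S : Set (ℤ × ℤ))) :
    EmpM (l ::ₘ (M + ones (l + 1))) (↑S : Set (ℤ × ℤ)) := by
  classical
  obtain ⟨N, hN⟩ := exists_shft S
  rw [← empM_shft N] at h ⊢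
  obtain ⟨n, w, rfl⟩ := exists_vec M
  rw [EmpM_cons] at h
  have e : l ::ₘ (ms w + ones (l + 1)) =
      ms (fun o : Option (Fin n) => o.elim l w) + ones (l + 1) := by
    rw [ms_option, ← Multiset.singleton_add, add_assoc]
  rw [e, EmpM_ones, crk_iff]
  have h1 := crk_drop hN (fun o : Option (Fin n) => o.elim l w) none l
  have e1 : Function.update (fun o : Option (Fin n) => o.elim l w) none l =
      fun o : Option (Fin n) => o.elim l w := Function.update_eq_self _ _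
  have e2 : Function.update (fun o : Option (Fin n) => o.elim l w) none (l + 1) =
      fun o : Option (Fin n) => o.elim (l + 1) w := by
    funext o
    rcases o with _ | i
    · simp
    · simp
  rw [e1, e2, crk_zero_of_Emp h, zero_add] at h1
  exact h1

theorem r_affine {S S' : Finset (ℤ × ℤ)} {M : Multiset ℕ} (a b c d u v : ℤ)
    (hdet : a * d - b * c ≠ 0)
    (hS : ∀ m ∈ S', (a * m.1 + b * m.2 + u, c * m.1 + d * m.2 + v) ∈ S)
    (h : EmpM M (↑S : Set (ℤ × ℤ))) : EmpM M (↑S' : Set (ℤ × ℤ)) :=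
  Emp.comap h a b c d u v hdet (by exact_mod_cast hS)

theorem r_compress {S S' : Finset (ℤ × ℤ)} {M : Multiset ℕ}
    (hS : ∀ m ∈ S', (m.1, ((S'.filter fun m' => m'.1 = m.1 ∧ m'.2 < m.2).card : ℤ)) ∈ S)
    (h : EmpM M (↑S : Set (ℤ × ℤ))) : EmpM M (↑S' : Set (ℤ × ℤ)) := by
  classical
  refine Emp_flat0 ?_ h
  intro a B hB k hk
  -- the column
  obtain ⟨C, hC⟩ : ∃ C : Finset ℤ, C = (S'.filter fun m => m.1 = a).image Prod.snd := ⟨_, rfl⟩
  have hmem : ∀ b, b ∈ C ↔ (a, b) ∈ S' := by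
    intro b
    rw [hC, mem_image]
    constructor
    · rintro ⟨m, hm, rfl⟩
      rw [mem_filter] at hm
      obtain ⟨h1, h2⟩ := hm
      rw [← h2]
      exact h1
    · intro h1
      exact ⟨(a, b), by rw [mem_filter]; exact ⟨h1, rfl⟩, rfl⟩
  have hBC : B ⊆ C := fun b hb => (hmem b).2 (by exact_mod_cast hB b hb)
  have hkC : k < C.card := lt_of_lt_of_le hk (card_le_card hBC)
  obtain ⟨b, hb⟩ : ∃ b, b = C.orderEmbOfFin rfl ⟨k, hkC⟩ := ⟨_, rfl⟩
  have hbC : b ∈ C := by rw [hb]; exact orderEmbOfFin_mem _ _ _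
  have h1 := hS (a, b) ((hmem b).1 hbC)
  have h2 : (S'.filter fun m' => m'.1 = (a, b).1 ∧ m'.2 < (a, b).2).card = k := by
    have e1 : (S'.filter fun m' => m'.1 = (a, b).1 ∧ m'.2 < (a, b).2) =
        (C.filter fun t => t < b).image fun t => ((a, t) : ℤ × ℤ) := by
      ext ⟨x, y⟩
      simp only [mem_filter, mem_image, Prod.mk.injEq]
      constructor
      · rintro ⟨h3, rfl, h4⟩
        exact ⟨y, ⟨(hmem y).2 h3, h4⟩, rfl, rfl⟩
      · rintro ⟨t, ⟨h3, h4⟩, rfl, rfl⟩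
        exact ⟨(hmem _).1 h3, rfl, h4⟩
    rw [e1, card_image_of_injective _ (fun t t' h => (Prod.mk.inj h).2)]
    have e2 : (C.filter fun t => t < b) =
        (univ.filter fun i : Fin C.card => i < ⟨k, hkC⟩).image (C.orderEmbOfFin rfl) := by
      ext t
      simp only [mem_filter, mem_image, mem_univ, true_and]
      constructor
      · rintro ⟨h3, h4⟩
        have h5 : t ∈ Set.range (C.orderEmbOfFin rfl) := by
          rw [range_orderEmbOfFin]
          exact h3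
        obtain ⟨i, rfl⟩ := h5
        rw [hb] at h4
        exact ⟨i, (C.orderEmbOfFin rfl).lt_iff_lt.1 h4, rfl⟩
      · rintro ⟨i, h3, rfl⟩
        refine ⟨orderEmbOfFin_mem _ _ _, ?_⟩
        rw [hb]
        exact (C.orderEmbOfFin rfl).lt_iff_lt.2 h3
    rw [e2, card_image_of_injective _ (C.orderEmbOfFin rfl).injective]
    have e3 : (univ.filter fun i : Fin C.card => i < ⟨k, hkC⟩) = Finset.Iio ⟨k, hkC⟩ := by
      ext i
      simp
    rw [e3, Fin.card_Iio]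
  rw [h2] at h1
  exact_mod_cast h1

theorem r_cut {S S' : Finset (ℤ × ℤ)} {M M' : Multiset ℕ} (a b : ℤ)
    (hcut : ∀ m ∈ S, ∀ m' ∈ S', a * m.1 + b * m.2 < a * m'.1 + b * m'.2)
    (h : EmpM M (↑S : Set (ℤ × ℤ))) (h' : EmpM M' (↑S' : Set (ℤ × ℤ))) :
    EmpM (M + M') (↑(S ∪ S') : Set (ℤ × ℤ)) := by
  classical
  obtain ⟨N, hN⟩ := exists_shft (S ∪ S')
  have e : shft N (S ∪ S') = shft N S ∪ shft N S' := by
    unfold shft
    rw [image_union]
  rw [e] at hN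
  rw [← empM_shft N, e, coe_union]
  rw [← empM_shft N] at h h'
  obtain ⟨n, w, rfl⟩ := exists_vec M
  obtain ⟨n', w', rfl⟩ := exists_vec M'
  rw [EmpM_ms] at h h'
  rw [EmpM_add]
  refine Pool.Agent.TH698.NagT3.Emp_cut (finite_toSet _) (finite_toSet _)
    (fun m hm => hN m (mem_union_left _ (by exact_mod_cast hm)))
    (fun m hm => hN m (mem_union_right _ (by exact_mod_cast hm))) a b ?_ h h'
  intro m hm m' hm'
  rw [mem_coe, mem_shft] at hm hm'
  have := hcut _ hm _ hm'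
  simp only at this
  linarith

theorem coe_triangle (d : ℕ) : (↑(triangle d) : Set (ℤ × ℤ)) = TZ d := by
  ext ⟨x, y⟩
  unfold triangle TZ
  simp only [coe_filter, mem_product, mem_Icc, Set.mem_setOf_eq]
  omega

theorem card_triangle (d : ℕ) : (triangle d).card = (d + 2).choose 2 := by
  have h : triangle d = TF d := by
    apply coe_injective
    rw [coe_triangle, coe_TF]
  rw [h, card_TF]

theorem r_matching {S : Finset (ℤ × ℤ)} {M M' : Multiset ℕ} {D p q : ℕ} (hD : 1 ≤ D)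
    (hpq : p + q ≤ D + 1) (h1 : EmpM (M + ones p) (↑(triangle D) : Set (ℤ × ℤ)))
    (h2 : EmpM M (↑(triangle (D - 1)) : Set (ℤ × ℤ)))
    (h3 : EmpM (D ::ₘ (M' + ones q)) (↑S : Set (ℤ × ℤ)))
    (h4 : EmpM ((D + 1) ::ₘ M') (↑S : Set (ℤ × ℤ))) : EmpM (M + M') (↑S : Set (ℤ × ℤ)) := by
  obtain ⟨N, hN⟩ := exists_shft S
  rw [← empM_shft N] at h3 h4 ⊢
  obtain ⟨n, w, rfl⟩ := exists_vec M
  obtain ⟨n', w', rfl⟩ := exists_vec M'
  rw [coe_triangle] at h1 h2
  rw [EmpM_ones] at h1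
  rw [EmpM_ms] at h2
  rw [EmpM_cons] at h4
  have e : D ::ₘ (ms w' + ones q) = ms (fun o : Option (Fin n') => o.elim D w') + ones q := by
    rw [ms_option, ← Multiset.singleton_add, add_assoc]
  rw [e, EmpM_ones] at h3
  rw [EmpM_add]
  exact match_quad w w' (finite_toSet _) (fun m hm => hN m (by exact_mod_cast hm)) D p q hD hpq
    h1 h2 h3 h4

theorem r_quarters {S : Finset (ℤ × ℤ)} {b : ℕ} {M : Multiset ℕ} (hb : 1 ≤ b)
    (h : EmpM (b ::ₘ M) (↑S : Set (ℤ × ℤ))) :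
    EmpM ({(2 * b - 1) / 4, 2 * b / 4, (2 * b + 1) / 4, (2 * b + 2) / 4} + M)
      (↑S : Set (ℤ × ℤ)) := by
  have h1 := Pool.Agent.TH2.NU.exM (a := 1) (M := M) hb (by
    rw [one_smul, Multiset.singleton_add]
    exact h)
  rw [one_smul] at h1
  have e : Pool.Agent.TH2.NU.r4 b =
      {(2 * b - 1) / 4, 2 * b / 4, (2 * b + 1) / 4, (2 * b + 2) / 4} := by
    unfold Pool.Agent.TH2.NU.r4 Pool.Agent.TH2.NU.rv ms
    rw [Fintype.sum_prod_type]
    simp only [Fin.sum_univ_two, Fin.coe_ofNat_eq_mod, Nat.zero_mod, Nat.one_mod,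
      Nat.mod_succ, mul_zero, mul_one, add_zero, zero_add]
    have e1 : 2 * b - 1 + 1 = 2 * b := by omega
    have e2 : 2 * b - 1 + 2 = 2 * b + 1 := by omega
    have e3 : 2 * b - 1 + (2 + 1) = 2 * b + 2 := by omega
    rw [e1, e2, e3]
    rfl
  rw [e] at h1
  exact h1

theorem r_doubling {S : Finset (ℤ × ℤ)} {N m c : ℕ} {M : Multiset ℕ}
    (h1 : EmpM (Multiset.replicate N (2 * m) + M + ones (c + N * m)) (↑S : Set (ℤ × ℤ)))
    (h2 : EmpM (Multiset.replicate N (2 * m + 1) + M + ones c) (↑S : Set (ℤ × ℤ))) :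
    EmpM (Multiset.replicate (4 * N) m + M + ones c) (↑S : Set (ℤ × ℤ)) := by
  obtain ⟨n, hn⟩ := exists_shft S
  rw [← empM_shft n] at h1 h2 ⊢
  rw [crkM_iff] at h1 h2 ⊢
  exact crkM_quads hn h1 h2

theorem r_convexity {S : Finset (ℤ × ℤ)} {x y a b : ℕ} {M : Multiset ℕ} (hxy : x ≤ y)
    (h1 : EmpM (x ::ₘ x ::ₘ (M + ones a)) (↑S : Set (ℤ × ℤ)))
    (h2 : EmpM (y ::ₘ y ::ₘ (M + ones b)) (↑S : Set (ℤ × ℤ))) :
    EmpM (x ::ₘ y ::ₘ (M + ones ((a + b) / 2))) (↑S : Set (ℤ × ℤ)) := by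
  classical
  obtain ⟨N, hN⟩ := exists_shft S
  rw [← empM_shft N] at h1 h2 ⊢
  obtain ⟨n, w, rfl⟩ := exists_vec M
  obtain ⟨V, hV⟩ : ∃ V : ℕ → ℕ → Option (Option (Fin n)) → ℕ,
      V = fun s t => fun o => o.elim s (fun o => o.elim t w) := ⟨_, rfl⟩
  have e : ∀ s t c : ℕ, s ::ₘ t ::ₘ (ms w + ones c) = ms (V s t) + ones c := by
    intro s t c
    rw [hV]
    simp only
    rw [ms_option, ms_option, ← Multiset.singleton_add, ← Multiset.singleton_add, add_assoc,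
      add_assoc]
  rw [e, EmpM_ones, crk_iff] at h1 h2 ⊢
  have u1 : Function.update (V x x) none y = V y x := by
    rw [hV]
    funext o
    rcases o with _ | o
    · simp
    · simp
  have u2 : Function.update (V x y) none y = V y y := by
    rw [hV]
    funext o
    rcases o with _ | o
    · simp
    · simp
  have h3 := crk_super hN (w := V x x) (w' := V x y) (by
    rw [hV]
    rintro (_ | _ | i)
    · exact le_rfl
    · exact hxy
    · exact le_rfl) none y (by rw [hV]; exact hxy)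
  rw [u1, u2] at h3
  have h4 : crk (shft N S) (V y x) = crk (shft N S) (V x y) := by
    have h5 := crk_perm (shft N S) (V x y) (Equiv.swap none (some none))
    rw [← h5]
    congr 1
    rw [hV]
    funext o
    rcases o with _ | _ | i
    · simp
    · simp
    · rw [Equiv.swap_apply_of_ne_of_ne (by simp) (by simp)]
      rfl
  rw [h4] at h3
  omega

end Pool.Agent.Helper79.TC
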