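import Pool.Agent.Helper79.TC.Rules
import Pool.Graph.R_pool_sql_team_seeded_843ab51a.V11310.CL.Main
import Pool.Graph.R_pool_sql_team_seeded_64922ed1.X213.Forms

set_option autoImplicit false

/-!
# The calculus is sound
-/

namespace Pool.Agent.Helper79.TC

open MvPolynomial Finset Pool.Agent.TH176.Nag Pool.Agent.TH603.Sur Pool.Agent.TH641.UM
  Pool.Agent.Y205.MD
open Pool.Agent.V11310.CL (GE expDim_forms nag_of_emp nag_of_emp' sur_of_ind ge_of_nag ge_of_sur
  emp_of_ge ge_of_emp Means means_quadratic means_iff)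
open Pool.Agent.TH167.SHDefs (Special)
open Pool.Agent.X213.Forms (ForGeneral)

/-- The systems `(d, M)` in `B` are not special. -/
def NonSpecialSet (B : ℕ → Multiset ℕ → Prop) : Prop :=
  ∀ (d n : ℕ) (w : Fin n → ℕ), B d ((univ : Finset (Fin n)).val.map w) →
    ForGeneral fun P : Fin n → Fin 2 → ℂ => ¬ Special P d w

theorem ms_eq {ι : Type} [Fintype ι] (w : ι → ℕ) : ms w = (univ : Finset ι).val.map w := by
  unfold ms
  rw [Finset.sum_eq_multiset_sum]
  have h := Multiset.sum_map_singleton ((univ : Finset ι).val.map w)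
  rw [Multiset.map_map] at h
  exact h

theorem cond_eq {ι : Type} [Fintype ι] (w : ι → ℕ) : cond w = conditions (ms w) := by
  unfold conditions Pool.Agent.TH603.Sur.cond
  rw [ms_eq, Multiset.map_map]
  rfl

theorem emp_zero {ι : Type} {T : Finset (ℤ × ℤ)} (h : Emp (fun _ : ι => 0) (↑T : Set (ℤ × ℤ))) :
    T = ∅ := by
  classical
  obtain ⟨K, _, _, x, y, hx, hy, hf⟩ := h
  by_contra hne
  obtain ⟨m, hm⟩ := Finset.nonempty_iff_ne_empty.2 hne
  have h1 : (Finsupp.single m (1 : K)) = 0 := by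
    refine hf _ ?_ fun i => ?_
    · rw [Finsupp.support_single_ne_zero _ one_ne_zero]
      simpa using hm
    · intro P hP
      have h2 : PF K 0 = ⊥ := by
        unfold PF
        rw [Submodule.span_eq_bot]
        rintro P ⟨a, b, hab, -⟩
        omega
      rw [h2, Submodule.mem_bot] at hP
      subst hP
      unfold pr
      simp
  exact one_ne_zero (Finsupp.single_eq_zero.1 h1)

theorem card_le_cond {ι : Type} [Fintype ι] [DecidableEq ι] {w : ι → ℕ} {S : Finset (ℤ × ℤ)}
    (hpos : ∀ u ∈ S, 0 ≤ u.1 ∧ 0 ≤ u.2) (h : Emp w (↑S : Set (ℤ × ℤ))) : S.card ≤ cond w := by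
  have h1 := crk_cond hpos (∑ i, w i) (w := fun _ : ι => 0) (v := w) (fun i => Nat.zero_le _)
    (by simp)
  rw [crk_zero_of_Emp h] at h1
  obtain ⟨T, hT1, hT2, hT3⟩ := crk_spec S (fun _ : ι => 0)
  rw [emp_zero hT3, card_empty] at hT2
  omega

theorem triangle_pos {d : ℕ} : ∀ u ∈ triangle d, 0 ≤ u.1 ∧ 0 ≤ u.2 := by
  rintro ⟨x, y⟩ h
  unfold triangle at h
  simp only [mem_filter, mem_product, mem_Icc] at h
  exact ⟨h.1.1.1, h.1.2.1⟩

/-- the two descriptions of emptiness in the plane -/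
theorem emp_iff {d : ℕ} {M : Multiset ℕ} :
    EmpM M (↑(triangle d) : Set (ℤ × ℤ)) ↔ Y55.Col.Emp 2 (d + 1) M := by
  classical
  obtain ⟨n, w, rfl⟩ := exists_vec M
  rw [EmpM_ms]
  constructor
  · intro h
    have h1 := card_le_cond triangle_pos h
    rw [card_triangle] at h1
    rw [coe_triangle] at h
    have h2 : GE d w := ge_of_nag h (v := w) rfl
    have h3 := emp_of_ge h2 h1
    rw [ms_eq]
    exact h3
  · intro h
    rw [coe_triangle]
    rw [ms_eq] at h
    exact nag_of_emp h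

theorem r_point {μ : ℕ} (hμ : 1 ≤ μ) : EmpM {μ} (↑(triangle (μ - 1)) : Set (ℤ × ℤ)) := by
  rw [emp_iff]
  refine ⟨Unit, inferInstance, fun _ => μ, fun _ _ => 0, by simp, ?_⟩
  intro F hF hv
  have h2 : μ - 1 + 1 ≤ μ := by omega
  exact Y55.Col.one h2 _ hF (hv ())

theorem r_quadratic {d a b c : ℕ} {M : Multiset ℕ} (hab : a + b ≤ d) (hac : a + c ≤ d)
    (hbc : b + c ≤ d) (h : EmpM ((d - (b + c)) ::ₘ (d - (a + c)) ::ₘ (d - (a + b)) ::ₘ M)
      (↑(triangle (2 * d - (a + b + c))) : Set (ℤ × ℤ))) :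
    EmpM (a ::ₘ b ::ₘ c ::ₘ M) (↑(triangle d) : Set (ℤ × ℤ)) := by
  rw [emp_iff] at h ⊢
  exact means_quadratic (s := Pool.Agent.V11310.CL.Side.none) hab hac hbc h

/-- one configuration of points -/
theorem emp_of_pt {n d p : ℕ} {w : Fin n → ℕ} {P : Fin n → Fin 2 → ℂ} (h0 : ∀ i, P i 0 ≠ 0)
    (hP : Pool.Agent.H932R3.ExpDim ℂ w P d) (hp : (d + 2).choose 2 ≤ conditions (ms w) + p) :
    EmpM (ms w + ones p) (↑(triangle d) : Set (ℤ × ℤ)) := by
  rw [← cond_eq] at hp
  rw [expDim_forms] at hP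
  rcases le_total ((d + 2).choose 2) (cond w) with hχ | hχ
  · have h1 : EmpM (ms w) (↑(triangle d) : Set (ℤ × ℤ)) := by
      rw [emp_iff, ms_eq]
      have hχ' : (d + 2).choose 2 ≤ ∑ i, (w i + 1).choose 2 := hχ
      rw [Nat.sub_eq_zero_of_le hχ'] at hP
      exact Y55.Col.emp_of_point (n := 1) w (fun j => Pool.Agent.W609.CR.aff (P j)) (fun i => h0 i)
        ((Y55.Col.finrank_zero_iff _ _).1 hP)
    exact h1.mono (Multiset.le_add_right _ _)
  · have hχ' : ∑ i, (w i + 1).choose 2 ≤ (d + 2).choose 2 := hχ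
    have h1 : Y55.Col.Ind 1 (d + 1) ((univ : Finset (Fin n)).val.map w) := by
      refine Y55.Col.ind_of_point (n := 1) w (fun j => Pool.Agent.W609.CR.aff (P j))
        (fun i => h0 i) ?_
      show Module.finrank ℂ
        (Pool.Agent.H938R2.forms 3 d w (fun j => Pool.Agent.W609.CR.aff (P j))) +
        ∑ i, (w i + 1).choose 2 = (d + 2).choose 2
      rw [hP]
      omega
    have h2 : Sur w (TZ d) := sur_of_ind h1
    rw [EmpM_ones, coe_triangle]
    exact Emp_ones h2 hp

theorem expDim_of_not_special {n d : ℕ} {w : Fin n → ℕ} {P : Fin n → Fin 2 → ℂ}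
    (h : ¬ Special P d w) : Pool.Agent.H932R3.ExpDim ℂ w P d := by
  rw [Pool.Agent.X213.Forms.special_iff', not_not] at h
  show Module.finrank ℂ ↥(Pool.Agent.TH167.SHDefs.sys P d w) =
    Nat.choose (d + 2) 2 - ∑ i, Nat.choose (w i + 1) 2
  unfold Pool.Agent.X213.Forms.hZero Pool.Agent.X213.Forms.chi at h
  have h2 : ∑ i, ((w i + 1).choose 2 : ℤ) = ((∑ i, Nat.choose (w i + 1) 2 : ℕ) : ℤ) := by
    push_cast
    rfl
  rw [h2] at h
  omega

theorem r_known {B : ℕ → Multiset ℕ → Prop} (hB : NonSpecialSet B) {d p : ℕ} {M : Multiset ℕ}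
    (h : B d M) (hp : (d + 2).choose 2 ≤ conditions M + p) :
    EmpM (M + ones p) (↑(triangle d) : Set (ℤ × ℤ)) := by
  classical
  obtain ⟨n, w, rfl⟩ := exists_vec M
  obtain ⟨F, hF, hF'⟩ := hB d n w (by rw [← ms_eq]; exact h)
  have h1 : F * ∏ i : Fin n, X (i, (0 : Fin 2)) ≠ 0 :=
    mul_ne_zero hF (Finset.prod_ne_zero_iff.2 fun i _ => X_ne_zero _)
  obtain ⟨x, hx⟩ := Pool.Agent.H938R2.exists_eval_ne_zero h1
  rw [map_mul, map_prod] at hx
  refine emp_of_pt (P := fun i j => x (i, j)) (fun i h0 => ?_)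
    (expDim_of_not_special (hF' _ (left_ne_zero_of_mul hx))) hp
  apply right_ne_zero_of_mul hx
  apply Finset.prod_eq_zero (Finset.mem_univ i)
  rw [eval_X]
  exact h0

/-- **Soundness**: there are no Laurent polynomials with exponents in `S` and with the multiplicities
`M` at general points of the torus. -/
theorem void_sound {B : ℕ → Multiset ℕ → Prop} (hB : NonSpecialSet B) {S : Finset (ℤ × ℤ)}
    {M : Multiset ℕ} (h : Void B S M) : EmpM M (↑S : Set (ℤ × ℤ)) := by
  induction h with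
  | known d M p h hp => exact r_known hB h hp
  | point μ hμ => exact r_point hμ
  | sub S S' M M' hS hM h ih => exact r_sub hS hM ih
  | raise S a b M hab h ih => exact r_raise hab ih
  | exponent S M m h ih => exact r_exponent m ih
  | lower S M l h ih => exact r_lower ih
  | affine S S' M a b c d u v hdet hS h ih => exact r_affine a b c d u v hdet hS ih
  | compress S S' M hS h ih => exact r_compress hS ih
  | cut S S' M M' a b hcut h h' ih ih' => exact r_cut a b hcut ih ih'
  | matching S M M' D p q hD hpq h1 h2 h3 h4 i1 i2 i3 i4 => exact r_matching hD hpq i1 i2 i3 i4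
  | quarters S b M hb h ih => exact r_quarters hb ih
  | doubling S N m c M h1 h2 i1 i2 => exact r_doubling i1 i2
  | convexity S x y a b M hxy h1 h2 i1 i2 => exact r_convexity hxy i1 i2
  | quadratic d a b c M hab hac hbc h ih => exact r_quadratic hab hac hbc ih

theorem ge_of_void {n d : ℕ} {w : Fin n → ℕ}
    (h : EmpM (ms w + ones ((d + 2).choose 2 - conditions (ms w)))
      (↑(triangle d) : Set (ℤ × ℤ))) : GE d w := by
  rw [← cond_eq] at h
  rw [EmpM_ones, coe_triangle] at h
  rcases le_total ((d + 2).choose 2) (cond w) with hχ | hχ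
  · rw [Nat.sub_eq_zero_of_le hχ, Emp_zero_iff] at h
    intro K _ _ P hP
    exact ge_of_nag h rfl hP
  · have h1 : Sur w (TZ d) := Sur_of_ones h (by omega)
    intro K _ _ P hP
    exact ge_of_sur h1 rfl hP

/-- The reached classes have the expected dimension at generic points. -/
theorem reached_ge {B : ℕ → Multiset ℕ → Prop} (hB : NonSpecialSet B) {n d : ℕ} {w : Fin n → ℕ}
    (h : Reached B d ((univ : Finset (Fin n)).val.map w)) : GE d w := by
  unfold Reached at h
  rw [← ms_eq] at h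
  have h1 := void_sound hB h
  intro K _ _ P hP
  exact ge_of_void h1 hP

end Pool.Agent.Helper79.TC
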